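import Pool.Agent.H.MP_19024a.E

namespace Pool.Agent.Results.MP_19024a_an.Main

theorem result : ∃ (X Y : Type) (_ : NormedAddCommGroup X) (_ : NormedSpace ℝ X)
    (_ : CompleteSpace X) (_ : NormedAddCommGroup Y) (_ : NormedSpace ℝ Y) (_ : CompleteSpace Y),
    (∃ (f : X ≃ Y) (K L : NNReal), LipschitzWith K f ∧ LipschitzWith L f.symm) ∧
    (∃ N : X → ℝ, (∀ x y, N (x + y) ≤ N x + N y) ∧ (∀ (c : ℝ) x, N (c • x) = |c| * N x) ∧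
      (∃ a b : ℝ, 0 < a ∧ ∀ x, a * ‖x‖ ≤ N x ∧ N x ≤ b * ‖x‖) ∧
      ∀ (k : ℕ) x, x ≠ 0 → ContDiffAt ℝ k N x) ∧
    ¬ ∃ N : Y → ℝ, (∀ x y, N (x + y) ≤ N x + N y) ∧ (∀ (c : ℝ) x, N (c • x) = |c| * N x) ∧
      (∃ a b : ℝ, 0 < a ∧ ∀ x, a * ‖x‖ ≤ N x ∧ N x ≤ b * ‖x‖) ∧
      ∀ x, x ≠ 0 → DifferentiableAt ℝ N x := by
  obtain ⟨X, Y, _, _, _, _, _, _, f, f1, f2, ⟨N, ⟨n1, n2, n3⟩, n4⟩, h⟩ := H.MP_19024a.main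
  exact ⟨X, Y, _, _, ‹_›, _, _, ‹_›, ⟨f, 3, 3, f1, f2⟩,
    ⟨N, n1, n2, n3, fun k x a => (n4 x a).of_le (by exact_mod_cast le_top)⟩,
    fun ⟨N, n1, n2, n3, n4⟩ => h N ⟨n1, n2, n3⟩ n4⟩

end Pool.Agent.Results.MP_19024a_an.Main
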